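import Mathlib
import Pool.Agent.K3h96.OS.Conv

/-!
# The LMO invariant separates all connected sums of Seifert fibred integral homology spheres

By a theorem of Ohtsuki the LMO invariant of an integral homology sphere `M` determines its Ohtsuki
series `τ_M(h)` (the perturbative `SO(3)` invariant, `q = exp h`); the Ohtsuki series is
multiplicative under connected sums, and `h` is replaced by `-h` when the orientation is reversed.
For the Seifert fibred integral homology sphere `Σ(a₁, …, aₙ)` (`n ≥ 3`, `a_i ≥ 2` pairwise coprime,
`P = a₁ ⋯ aₙ`) Lawrence and Rozansky proved

  `τ(h) = q ^ (-φ / 4) / (q ^ (1 / 2) - q ^ (-1 / 2)) * 2 * ⟨∏ sinh (y / a_i) / sinh y ^ (n - 2)⟩`,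

where `⟨ ⟩` is the formal Gaussian integral with `⟨y ^ (2 k)⟩ = (2 k - 1)!! (P h / 2) ^ k` and `φ` is a
rational number depending on `a₁, …, aₙ`. The definitions (`SeifertSphere`, `ohtsuki`, `Slow`) are in
`Pool.Agent.K3h96.OS.Defs`. (For `Σ(2, 3, 5)` and `φ = 181 / 30` the series is `1 - 6 h + …`.)

Theorem: the Ohtsuki series, hence the LMO invariant, separates all finite connected sums
`M₁ # ⋯ # M_r` of Seifert fibred integral homology spheres, with all orientations (each summand may
occur several times and with both orientations). More is true: the connected sum is determined by its
Ohtsuki series up to a factor whose coefficients grow more slowly than `k! (30 / π ^ 2) ^ k`, for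
example up to a convergent factor; so it does not matter which numbers `φ` one takes. (The empty
multiset is the 3-sphere; so no such connected sum, and in particular no `M # -M`, has a convergent
Ohtsuki series.) By the uniqueness of the decomposition of a 3-manifold into prime manifolds and
the classification of Seifert fibred integral homology spheres, the multiset of the oriented
summands is the same as the oriented homeomorphism type of the connected sum.
-/

set_option autoImplicit false

namespace Pool.Agent.Results.MP_27a3bb_gt.SeifertConnectedSums

open Pool.Agent.K3h96.OS

/-- `A` and `B` are finite multisets of oriented Seifert fibred integral homology spheres with at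
least three exceptional fibres; the products of Ohtsuki series are the Ohtsuki series of the
connected sums. If they agree up to multiplication by non-zero power series `c` and `c'` whose
coefficients grow more slowly than `k! (30 / π ^ 2) ^ k`, then `A = B` and `c = c'`. -/
theorem result (φ : SeifertSphere → ℂ) (A B : Multiset SeifertSphere) (c c' : PowerSeries ℂ)
    (hc : Slow c) (hc' : Slow c') (hc0 : c ≠ 0) (hc0' : c' ≠ 0)
    (h : c * (A.map fun M => ohtsuki (φ M) M).prod = c' * (B.map fun M => ohtsuki (φ M) M).prod) :
    A = B ∧ c = c' :=
  main φ A B c c' hc hc' hc0 hc0' h

end Pool.Agent.Results.MP_27a3bb_gt.SeifertConnectedSums
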